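import Mathlib
import Pool.Agent.H.MP_3ae40e_gt.A

set_option autoImplicit false
open Set Topology Filter Pool.Agent.H.MP_3ae40e_gt

namespace Pool.Agent.H.MP_892330_gt

variable {X : Type} [TopologicalSpace X] [CompactSpace X] [T2Space X] {ι : Type} {U : ι → Set X}

def Rf (U : ι → Set X) (S T : Set X) : Prop :=
  ∃ (κ : Type) (_ : Finite κ) (V : κ → Set X), (∀ j, IsOpen (V j)) ∧ S ⊆ ⋃ j, V j ∧
    (∀ j, ∃ i, V j ⊆ U i) ∧ (∀ x ∈ S, ∀ a b c, x ∈ V a → x ∈ V b → x ∈ V c → a = b ∨ a = c ∨ b = c) ∧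
    ∀ x ∈ T, ∀ a b, x ∈ V a → x ∈ V b → a = b

omit [CompactSpace X] [T2Space X] in
lemma Rf.mono {S T T' : Set X} (h : Rf U S T) (k : T' ⊆ T) : Rf U S T' :=
  let ⟨κ, a, V, b, c, d, e, f⟩ := h; ⟨κ, a, V, b, c, d, e, fun x l => f x (k l)⟩

lemma Rf.loc {S T : Set X} (h : Rf U S T) {x : X} (hx : x ∈ S) :
    ∃ B ∈ 𝓝 x, (∃ i, B ⊆ U i) ∧ Rf U S (T ∪ B) := by
  classical
  obtain ⟨κ, a, V, v1, v2, v3, v4, v5⟩ := h
  obtain ⟨j, hj⟩ := mem_iUnion.1 (v2 hx)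
  obtain ⟨B, b1, b2, b3⟩ := exists_mem_nhds_isClosed_subset ((v1 j).mem_nhds hj)
  have s : ∀ k, (if k = j then V k else V k \ B) ⊆ V k := fun k => by
    split_ifs
    exacts [subset_rfl, diff_subset]
  refine ⟨B, b1, (v3 j).imp fun _ => b3.trans, κ, a, fun k => if k = j then V k else V k \ B,
    fun k => ?_, fun y hy => ?_, fun k => (v3 k).imp fun _ => (s k).trans,
    fun y hy a b c l m n => v4 y hy a b c (s _ l) (s _ m) (s _ n), ?_⟩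
  · dsimp only
    split_ifs
    exacts [v1 k, (v1 k).sdiff b2]
  · obtain ⟨k, hk⟩ := mem_iUnion.1 (v2 hy)
    by_cases e : y ∈ V j
    · exact mem_iUnion.2 ⟨j, by rwa [if_pos rfl]⟩
    · exact mem_iUnion.2 ⟨k, by
        rw [if_neg fun l : k = j => e (l ▸ hk)]
        exact ⟨hk, fun l => e (b3 l)⟩⟩
  · rintro y (hy | hy) a b l m
    · exact v5 y hy a b (s _ l) (s _ m)
    have : ∀ k, y ∈ (if k = j then V k else V k \ B) → k = j := fun k l => by_contra fun n => by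
      rw [if_neg n] at l
      exact l.2 hy
    rw [this a l, this b m]

lemma glue {K a b P Q N M : Set X} (ha : IsClosed a) (hb : IsClosed b) (d : Disjoint a b)
    (c : K ⊆ a ∪ b ∪ (N ∪ M)) (aP : a ⊆ P) (bQ : b ⊆ Q) (hN : IsOpen N) (hM : IsOpen M)
    (n : ∃ i, N ⊆ U i) (m : ∃ i, M ⊆ U i) (nm : Disjoint N M) (p : Rf U P (N ∪ M))
    (q : Rf U Q (N ∪ M)) : Rf U K ∅ := by
  obtain ⟨κ, _, V, v1, v2, v3, v4, v5⟩ := p
  obtain ⟨μ, _, W, w1, w2, w3, w4, w5⟩ := q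
  obtain ⟨u, v, hu, hv, u1, u2, uv⟩ := normal_separation ha hb d
  refine ⟨(κ ⊕ μ) ⊕ Bool, inferInstance, Sum.elim (Sum.elim (fun j => V j ∩ u) fun j => W j ∩ v)
    fun t => cond t N M, ?_, fun x hx => ?_, ?_, fun x hx => ?_, fun _ l => l.elim⟩
  · rintro ((j | j) | (_ | _))
    exacts [(v1 j).inter hu, (w1 j).inter hv, hM, hN]
  · rcases c hx with (l | l) | l | l
    · obtain ⟨j, hj⟩ := mem_iUnion.1 (v2 (aP l))
      exact mem_iUnion.2 ⟨.inl (.inl j), hj, u1 l⟩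
    · obtain ⟨j, hj⟩ := mem_iUnion.1 (w2 (bQ l))
      exact mem_iUnion.2 ⟨.inl (.inr j), hj, u2 l⟩
    exacts [mem_iUnion.2 ⟨.inr true, l⟩, mem_iUnion.2 ⟨.inr false, l⟩]
  · rintro ((j | j) | (_ | _))
    exacts [(v3 j).imp fun _ => inter_subset_left.trans, (w3 j).imp fun _ => inter_subset_left.trans,
      m, n]
  have duv : x ∈ u → x ∈ v → False := fun l m => disjoint_left.1 uv l m
  by_cases e : x ∈ N ∪ M
  · have o1 : ∀ i j : κ ⊕ μ, x ∈ Sum.elim (fun j => V j ∩ u) (fun j => W j ∩ v) i →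
        x ∈ Sum.elim (fun j => V j ∩ u) (fun j => W j ∩ v) j → i = j := by
      rintro (i | i) (j | j) l m
      exacts [congrArg _ (v5 x e i j l.1 m.1), (duv l.2 m.2).elim, (duv m.2 l.2).elim,
        congrArg _ (w5 x e i j l.1 m.1)]
    have o2 : ∀ i j : Bool, x ∈ cond i N M → x ∈ cond j N M → i = j := by
      rintro (_ | _) (_ | _) l m
      exacts [rfl, (disjoint_left.1 nm m l).elim, (disjoint_left.1 nm l m).elim, rfl]
    rintro (i | i) (j | j) (k | k) l m n <;> first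
      | exact Or.inl (congrArg _ (o1 _ _ l m)) | exact Or.inl (congrArg _ (o2 _ _ l m))
      | exact Or.inr (Or.inl (congrArg _ (o1 _ _ l n)))
      | exact Or.inr (Or.inl (congrArg _ (o2 _ _ l n)))
      | exact Or.inr (Or.inr (congrArg _ (o1 _ _ m n)))
      | exact Or.inr (Or.inr (congrArg _ (o2 _ _ m n)))
  have o : ∀ t : Bool, x ∉ cond t N M := by
    rintro (_ | _) l
    exacts [e (Or.inr l), e (Or.inl l)]
  rintro (i | i) (j | j) (k | k) l m n <;> try first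
    | exact (o _ l).elim | exact (o _ m).elim | exact (o _ n).elim
  rcases (c hx).resolve_right e with r | r <;> rcases i with i | i <;> rcases j with j | j <;>
    rcases k with k | k <;> try first
    | exact (duv (u1 r) l.2).elim | exact (duv (u1 r) m.2).elim | exact (duv (u1 r) n.2).elim
    | exact (duv l.2 (u2 r)).elim | exact (duv m.2 (u2 r)).elim | exact (duv n.2 (u2 r)).elim
  · simpa using v4 x (aP r) i j k l.1 m.1 n.1
  · simpa using w4 x (bQ r) i j k l.1 m.1 n.1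

lemma Rf.nhd {S : Set X} (hS : IsClosed S) (h : Rf U S ∅) :
    ∃ G, IsOpen G ∧ S ⊆ G ∧ ∀ T ⊆ G, Rf U T ∅ := by
  obtain ⟨κ, _, V, v1, v2, v3, v4, -⟩ := h
  obtain ⟨W, w1, w2, w3⟩ := exists_subset_iUnion_closure_subset hS v1 (fun _ _ => toFinite _) v2
  let B := ⋃ a, ⋃ b, ⋃ c, ⋃ _ : ¬ (a = b ∨ a = c ∨ b = c),
    closure (W a) ∩ closure (W b) ∩ closure (W c)
  have hB : IsClosed B := isClosed_iUnion_of_finite fun _ => isClosed_iUnion_of_finite fun _ =>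
    isClosed_iUnion_of_finite fun _ => isClosed_iUnion_of_finite fun _ =>
      (isClosed_closure.inter isClosed_closure).inter isClosed_closure
  refine ⟨(⋃ j, W j) \ B, (isOpen_iUnion w2).sdiff hB, fun x hx => ⟨w1 hx, fun l => ?_⟩,
    fun T hT => ⟨κ, ‹_›, W, w2, fun x l => (hT l).1, fun j => (v3 j).imp fun _ =>
      (subset_closure.trans (w3 j)).trans, fun x hx a b c l m n => by_contra fun k => (hT hx).2 ?_,
      fun _ l => l.elim⟩⟩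
  · simp only [B, mem_iUnion] at l
    obtain ⟨a, b, c, k, ⟨l, m⟩, n⟩ := l
    exact k (v4 x hx a b c (w3 a l) (w3 b m) (w3 c n))
  · simp only [B, mem_iUnion]
    exact ⟨a, b, c, k, ⟨subset_closure l, subset_closure m⟩, subset_closure n⟩

structure Mn (U : ι → Set X) (K : Set X) : Prop where
  cl : IsClosed K
  cv : K ⊆ ⋃ i, U i
  op : ∀ i, IsOpen (U i)
  no : ¬ Rf U K ∅
  mn : ∀ S ⊆ K, IsClosed S → ¬ K ⊆ S → Rf U S ∅

lemma exists_mn (h1 : ∀ i, IsOpen (U i)) (h2 : univ ⊆ ⋃ i, U i) (h : ¬ Rf U univ ∅) :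
    ∃ K, Mn U K := by
  obtain ⟨K, -, k⟩ := zorn_superset_nonempty {S | IsClosed S ∧ ¬ Rf U S ∅} (fun c c1 c2 c3 => by
    haveI := c3.to_subtype
    have d : Directed (· ⊇ ·) fun A : c => A.1 := fun A B =>
      (c2.total A.2 B.2).elim (fun l => ⟨A, subset_rfl, l⟩) fun l => ⟨B, l, subset_rfl⟩
    have cl : ∀ A : c, IsClosed A.1 := fun A => (c1 A.2).1
    refine ⟨⋂ A : c, A.1, ⟨isClosed_iInter cl, fun r => ?_⟩,
      fun A hA => iInter_subset (fun A : c => A.1) ⟨A, hA⟩⟩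
    obtain ⟨G, g1, g2, g3⟩ := r.nhd (isClosed_iInter cl)
    obtain ⟨n, hn⟩ := exists_subset_nhds_of_compactSpace d cl fun z hz => g1.mem_nhds (g2 hz)
    exact (c1 n.2).2 (g3 _ hn)) univ ⟨isClosed_univ, h⟩
  exact ⟨K, k.1.1, (subset_univ _).trans h2, h1, k.1.2, fun S s1 s2 s3 => by_contra fun n =>
    s3 (k.2 ⟨s2, n⟩ s1)⟩

variable {K : Set X}

lemma Mn.ct (h : Mn U K) : Ct K := by
  have ne : K.Nonempty := nonempty_iff_ne_empty.2 fun e => h.no ⟨Empty, inferInstance,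
    fun _ => ∅, fun _ => isOpen_empty, by simp [e], nofun, fun _ _ => nofun, fun _ l => l.elim⟩
  refine ⟨h.cl, ne, by_contra fun n => ?_⟩
  obtain ⟨o, ho⟩ := ne
  obtain ⟨P, Q, hP, hQ, d, rfl, o1, q, hq⟩ := split h.cl n ho
  obtain ⟨i, -⟩ := mem_iUnion.1 (h.cv ho)
  exact h.no (glue (N := ∅) (M := ∅) hP hQ d subset_union_left subset_rfl subset_rfl isOpen_empty
    isOpen_empty ⟨i, empty_subset _⟩ ⟨i, empty_subset _⟩ (disjoint_empty _)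
    ((h.mn P subset_union_left hP fun l => disjoint_left.1 d (l (Or.inr hq)) hq).mono (by simp))
    ((h.mn Q subset_union_right hQ fun l => disjoint_left.1 d o1 (l ho)).mono (by simp)))

def Ft (K A : Set X) : Prop := ∃ G, IsOpen G ∧ (G ∩ K).Nonempty ∧ G ∩ K ⊆ A

def Dg (E : Set X) : Prop := ∀ (ι : Type) [Finite ι] (U : ι → Set X), (∀ i, IsOpen (U i)) →
  E ⊆ ⋃ i, U i → Rf U E ∅

lemma Mn.fat [Finite ι] (h : Mn U K) {E : Set X} (s : E ⊆ K) (f : Ft K E) : ¬ Dg E := fun d => by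
  obtain ⟨G, g1, ⟨x, x1, x2⟩, g3⟩ := f
  obtain ⟨C, c1, c2, c3⟩ := exists_mem_nhds_isClosed_subset (g1.mem_nhds x1)
  obtain ⟨κ, _, V, v1, v2, v3, v4, -⟩ := h.mn (K \ interior C) diff_subset
    (h.cl.sdiff isOpen_interior) fun l => (l x2).2 (mem_interior_iff_mem_nhds.2 c1)
  obtain ⟨μ, _, W, w1, w2, w3, w4, -⟩ := d (κ ⊕ ι) (Sum.elim V fun i => U i ∩ interior C)
    (by rintro (j | j); exacts [v1 j, (h.op j).inter isOpen_interior]) fun y hy => by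
      by_cases e : y ∈ interior C
      · obtain ⟨i, hi⟩ := mem_iUnion.1 (h.cv (s hy))
        exact mem_iUnion.2 ⟨.inr i, hi, e⟩
      · obtain ⟨j, hj⟩ := mem_iUnion.1 (v2 ⟨s hy, e⟩)
        exact mem_iUnion.2 ⟨.inl j, hj⟩
  choose g hg using w3
  let Y : κ ⊕ ι → Set X := fun t => Sum.elim (fun j => V j \ C) (fun _ => ∅) t ∪
    ⋃ m, ⋃ _ : g m = t, W m
  have y1 : ∀ t, Y t ⊆ Sum.elim V (fun i => U i ∩ interior C) t := fun t => union_subset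
    (by rcases t with t | t; exacts [diff_subset, empty_subset _])
    (iUnion₂_subset fun m e => e ▸ hg m)
  refine h.no ⟨κ ⊕ ι, inferInstance, Y, fun t => IsOpen.union ?_ (isOpen_iUnion fun m =>
    isOpen_iUnion fun _ => w1 m), fun y hy => ?_, ?_, fun y hy => ?_, fun _ l => l.elim⟩
  · rcases t with t | t
    exacts [(v1 t).sdiff c2, isOpen_empty]
  · by_cases e : y ∈ C
    · obtain ⟨m, hm⟩ := mem_iUnion.1 (w2 (g3 ⟨c3 e, hy⟩))
      exact mem_iUnion.2 ⟨g m, Or.inr (mem_iUnion₂.2 ⟨m, rfl, hm⟩)⟩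
    · obtain ⟨j, hj⟩ := mem_iUnion.1 (v2 ⟨hy, fun l => e (interior_subset l)⟩)
      exact mem_iUnion.2 ⟨.inl j, Or.inl ⟨hj, e⟩⟩
  · rintro (j | j)
    exacts [(v3 j).imp fun _ => (y1 _).trans, ⟨j, (y1 _).trans inter_subset_left⟩]
  by_cases e : y ∈ C
  · have : ∀ t, y ∈ Y t → ∃ m, g m = t ∧ y ∈ W m := by
      rintro (t | t) (l | l)
      exacts [(l.2 e).elim, by simpa using l, l.elim, by simpa using l]
    intro a' b' c' l' m' n'
    obtain ⟨a, rfl, l⟩ := this a' l'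
    obtain ⟨b, rfl, m⟩ := this b' m'
    obtain ⟨c, rfl, n⟩ := this c' n'
    exact (w4 y (g3 ⟨c3 e, hy⟩) a b c l m n).imp (congrArg g) (Or.imp (congrArg g) (congrArg g))
  · have e' := fun l => e (interior_subset l)
    rintro (a | a) (b | b) (c | c) l m n <;> try first
      | exact (e' (y1 _ l).2).elim | exact (e' (y1 _ m).2).elim | exact (e' (y1 _ n).2).elim
    simpa using v4 y ⟨hy, e'⟩ a b c (y1 _ l) (y1 _ m) (y1 _ n)

lemma Mn.cut (h : Mn U K) {A B : Set X} (hA : IsClosed A) (hB : IsClosed B) (a : Ft K A)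
    (b : Ft K B) {x y : X} (hx : x ∈ K \ (A ∪ B)) (hy : y ∈ K \ (A ∪ B))
    (k : ∀ I ⊆ K, Mt A B I → x ∈ I ∨ y ∈ I) : False := by
  obtain ⟨G, g1, ⟨u, u1, u2⟩, g3⟩ := a
  obtain ⟨F, f1, ⟨v, v1, v2⟩, f3⟩ := b
  have nG : ∀ x ∈ K \ (A ∪ B), x ∈ K \ G := fun x l => ⟨l.1, fun m => l.2 (Or.inl (g3 ⟨m, l.1⟩))⟩
  have nF : ∀ x ∈ K \ (A ∪ B), x ∈ K \ F := fun x l => ⟨l.1, fun m => l.2 (Or.inr (f3 ⟨m, l.1⟩))⟩
  obtain ⟨B1, a1, a2, a3⟩ := (h.mn (K \ F) diff_subset (h.cl.sdiff f1) fun l => (l v2).2 v1).loc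
    (nF x hx)
  obtain ⟨B2, b1, b2, b3⟩ := a3.loc (nF y hy)
  obtain ⟨B3, c1, -, c3⟩ := (h.mn (K \ G) diff_subset (h.cl.sdiff g1) fun l => (l u2).2 u1).loc
    (nG x hx)
  obtain ⟨B4, d1, -, d3⟩ := c3.loc (nG y hy)
  obtain ⟨N, M, n1, m1, n2, m2, nm, n3⟩ : ∃ N M, IsOpen N ∧ IsOpen M ∧ N ⊆ B1 ∩ B3 ∧ M ⊆ B2 ∩ B4 ∧
      Disjoint N M ∧ x ∈ N ∪ M ∧ y ∈ N ∪ M := by
    by_cases e : x = y
    · exact ⟨∅, _, isOpen_empty, isOpen_interior, empty_subset _, interior_subset, empty_disjoint _,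
        Or.inr (e ▸ mem_interior_iff_mem_nhds.2 (inter_mem b1 d1)),
        Or.inr (mem_interior_iff_mem_nhds.2 (inter_mem b1 d1))⟩
    obtain ⟨s, t, s1, t1, s2, t2, st⟩ := t2_separation e
    exact ⟨s ∩ interior (B1 ∩ B3), t ∩ interior (B2 ∩ B4), s1.inter isOpen_interior,
      t1.inter isOpen_interior, inter_subset_right.trans interior_subset,
      inter_subset_right.trans interior_subset, st.mono inter_subset_left inter_subset_left,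
      Or.inl ⟨s2, mem_interior_iff_mem_nhds.2 (inter_mem a1 c1)⟩,
      Or.inr ⟨t2, mem_interior_iff_mem_nhds.2 (inter_mem b1 d1)⟩⟩
  have cl := h.cl.sdiff (n1.union m1)
  obtain ⟨a, b, ha, hb, ab, e, aB, bA⟩ := wire cl hA hB fun p hp => disjoint_left.2 fun z z1 z2 => by
    have s := connectedComponentIn_subset (K \ (N ∪ M)) p
    exact (k _ (s.trans diff_subset) ⟨cc_ct cl hp.1, ⟨p, mem_connectedComponentIn hp.1, hp.2⟩,
      z, z1, z2⟩).elim (fun l => (s l).2 n3.1) fun l => (s l).2 n3.2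
  have sa := fun z (l : z ∈ a) => (e.subset (Or.inl l)).1
  have sb := fun z (l : z ∈ b) => (e.subset (Or.inr l)).1
  exact h.no (glue ha hb ab (fun z l => or_iff_not_imp_right.2 fun m => e.symm.subset ⟨l, m⟩)
    (P := K \ F) (Q := K \ G) (fun z l => ⟨sa z l, fun m => disjoint_left.1 aB l (f3 ⟨m, sa z l⟩)⟩)
    (fun z l => ⟨sb z l, fun m => disjoint_left.1 bA l (g3 ⟨m, sb z l⟩)⟩) n1 m1
    (a2.imp fun _ => (n2.trans inter_subset_left).trans)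
    (b2.imp fun _ => (m2.trans inter_subset_left).trans) nm
    (b3.mono (union_subset_union (fun z l => Or.inr (n2 l).1) fun z l => (m2 l).1))
    (d3.mono (union_subset_union (fun z l => Or.inr (n2 l).2) fun z l => (m2 l).2)))

lemma Mn.meet (h : Mn U K) (t : ∀ T : Set X, ¬ Tr T) {A B : Set X} (hA : Ct A) (hB : Ct B)
    (sA : A ⊆ K) (sB : B ⊆ K) (a : Ft K A) (b : Ft K B) : (A ∩ B).Nonempty := by
  by_contra n
  have d := disjoint_iff_inter_eq_empty.2 (not_nonempty_iff_eq_empty.1 n)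
  let Ir : Set X → Prop := fun I => I ⊆ K ∧ Mt A B I ∧ ∀ I' ⊆ I, Mt A B I' → I ⊆ I'
  have ex : ∀ J ⊆ K, Mt A B J → ∃ I ⊆ J, Ir I := fun J s j =>
    let ⟨I, i1, i2⟩ := irr hA.1 hB.1 j; ⟨I, i1, i1.trans s, i2⟩
  have de : ∀ I, Ir I → ∀ C, IsClosed C → I \ (A ∪ B) ⊆ C → I ⊆ C := fun I i C c l =>
    (irr_dense hA.1 hB.1 d i.2.1 i.2.2).trans (c.closure_subset_iff.2 l)
  have pr : ∀ A', A' ⊆ A ∪ B → Ft K A' → ∃ z ∈ A', ∀ I, Ir I → z ∉ I :=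
    fun A' s ⟨G, g1, ⟨z, z1⟩, g3⟩ => ⟨z, g3 z1, fun I i l => de I i _ g1.isClosed_compl
      (fun w m r => m.2 (s (g3 ⟨r, i.1 m.1⟩))) l z1.1⟩
  obtain ⟨za, a1, a2⟩ := pr A subset_union_left a
  obtain ⟨zb, b1, b2⟩ := pr B subset_union_right b
  have eq : ∀ I J, Ir I → Ir J → (I ∩ J).Nonempty → J \ (A ∪ B) ⊆ I := fun I J i j ⟨o, o1, o2⟩ => by
    obtain ⟨u, u1, u2⟩ := i.2.1.2.1
    obtain ⟨v, v1, v2⟩ := i.2.1.2.2
    rcases weak (W := univ) (fun T _ => t T) (i.2.1.1.union hA u1 u2) (i.2.1.1.union hB v1 v2)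
      (i.2.1.1.union j.2.1.1 o1 o2) (subset_univ _) (subset_univ _) (subset_univ _) (Or.inl o1)
      (Or.inl o1) (Or.inl o1) with l | l | l
    · rcases l (Or.inr a1) with (l | l) | l | l
      exacts [(a2 I i l).elim, (disjoint_left.1 d a1 l).elim, (a2 I i l).elim, (a2 J j l).elim]
    · rcases l (Or.inr b1) with (l | l) | l | l
      exacts [(b2 I i l).elim, (disjoint_left.1 d l b1).elim, (b2 I i l).elim, (b2 J j l).elim]
    · intro w m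
      rcases l (Or.inr m.1) with (l | l) | l | l
      exacts [l, (m.2 (Or.inl l)).elim, l, (m.2 (Or.inr l)).elim]
  have ne : ∀ I, Ir I → (I \ (A ∪ B)).Nonempty := fun I i => nonempty_iff_ne_empty.2 fun e =>
    i.2.1.1.2.1.ne_empty (subset_empty_iff.1 (de I i _ isClosed_empty e.subset))
  obtain ⟨I, -, i⟩ := ex K subset_rfl ⟨h.ct, ⟨_, sA a1, a1⟩, _, sB b1, b1⟩
  obtain ⟨x, x1, x2⟩ := ne I i
  by_cases e : ∀ J ⊆ K, Mt A B J → x ∈ J
  · exact h.cut hA.1 hB.1 a b ⟨i.1 x1, x2⟩ ⟨i.1 x1, x2⟩ fun J s j => Or.inl (e J s j)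
  push Not at e
  obtain ⟨J', s, j', x3⟩ := e
  obtain ⟨J, s', j⟩ := ex J' s j'
  obtain ⟨y, y1, y2⟩ := ne J j
  have ij : ∀ z ∈ I, z ∉ J := fun z l m => x3 (s' (eq J I j i ⟨z, m, l⟩ ⟨x1, x2⟩))
  refine h.cut hA.1 hB.1 a b ⟨i.1 x1, x2⟩ ⟨j.1 y1, y2⟩ fun L' s l' => by_contra fun n => ?_
  obtain ⟨L, s', l⟩ := ex L' s l'
  obtain ⟨z, z1, z2⟩ := ne L l
  have il : ∀ z ∈ I, z ∉ L := fun z r m => n (Or.inl (s' (eq L I l i ⟨z, m, r⟩ ⟨x1, x2⟩)))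
  have jl : ∀ z ∈ J, z ∉ L := fun z r m => n (Or.inr (s' (eq L J l j ⟨z, m, r⟩ ⟨y1, y2⟩)))
  obtain ⟨u, u1, u2⟩ := i.2.1.2.1
  obtain ⟨v, v1, v2⟩ := j.2.1.2.1
  obtain ⟨w, w1, w2⟩ := l.2.1.2.1
  exact t _ (mk_tr hA i.2.1.1 j.2.1.1 l.2.1.1 ⟨u, u2, u1⟩ ⟨v, v2, v1⟩ ⟨w, w2, w1⟩
    (fun r => x2 (Or.inl (r x1))) (fun r => y2 (Or.inl (r y1))) (fun r => z2 (Or.inl (r z1)))
    (fun z r => (ij z r.1 r.2).elim) (fun z r => (il z r.1 r.2).elim)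
    fun z r => (jl z r.1 r.2).elim)

omit [T2Space X] in
lemma comp (t : ∀ T : Set X, ¬ Tr T) (hK : Ct K) {Q : Set X} (hQ : Ct Q) (s : Q ⊆ K) {w : X}
    (hw : w ∈ K \ Q) : ∃ u, IsOpen u ∧ w ∈ u ∧ Disjoint u Q ∧
      (∀ S ⊆ K \ Q, IsPreconnected S → (S ∩ u).Nonempty → S ⊆ u) ∧ IsPreconnected (u ∩ K) := by
  have sp : ∀ u, IsOpen u → w ∈ u → ¬ IsPreconnected (u ∩ K) → ∃ a b, IsOpen a ∧ IsOpen b ∧
      w ∈ a ∧ a ∪ b ⊆ u ∧ u ∩ K ⊆ a ∪ b ∧ (b ∩ K).Nonempty ∧ Disjoint (a ∩ K) b := fun u hu l n => by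
    simp only [IsPreconnected, not_forall] at n
    obtain ⟨a, b, ha, hb, c, ⟨x, x1, x2⟩, ⟨y, y1, y2⟩, n⟩ := n
    have c' : u ∩ K ⊆ a ∩ u ∪ b ∩ u := fun z m => (c m).imp (⟨·, m.1⟩) (⟨·, m.1⟩)
    rcases c ⟨l, hw.1⟩ with r | r
    · exact ⟨_, _, ha.inter hu, hb.inter hu, ⟨r, l⟩, union_subset inter_subset_right
        inter_subset_right, c', ⟨y, ⟨y2, y1.1⟩, y1.2⟩,
        disjoint_left.2 fun z p q => n ⟨z, ⟨q.2, p.2⟩, p.1.1, q.1⟩⟩
    · exact ⟨_, _, hb.inter hu, ha.inter hu, ⟨r, l⟩, union_subset inter_subset_right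
        inter_subset_right, union_comm _ _ ▸ c', ⟨x, ⟨x2, x1.1⟩, x1.2⟩,
        disjoint_left.2 fun z p q => n ⟨z, ⟨q.2, p.2⟩, q.1, p.1.1⟩⟩
  by_contra n
  push Not at n
  obtain ⟨a, b, ha, hb, a1, a2, a3, a4, a5⟩ := sp _ hQ.1.isOpen_compl hw.2
    (n _ hQ.1.isOpen_compl hw.2 disjoint_compl_left fun S s _ _ z l => (s l).2)
  obtain ⟨c, d, hc, hd, c1, c2, c3, c4, c5⟩ := sp _ ha a1
    (n _ ha a1 (disjoint_left.2 fun z l => a2 (Or.inl l)) fun S s k m z l => by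
      have c : S ⊆ a ∪ b := fun y r => a3 ⟨(s r).2, (s r).1⟩
      refine (c l).resolve_right fun r => ?_
      obtain ⟨y, y1, y2, y3⟩ := k a b ha hb c m ⟨z, l, r⟩
      exact disjoint_left.1 a5 ⟨y2, (s y1).1⟩ y3)
  have e : ∀ p q : Set X, IsOpen p → IsOpen q → Disjoint (p ∩ K) q →
      closure (p ∩ K) ∩ (q ∩ K) = ∅ ∧ p ∩ K ∩ closure (q ∩ K) = ∅ := fun p q hp hq l =>
    ⟨disjoint_iff_inter_eq_empty.1 ((l.closure_left hq).mono_right inter_subset_left),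
      disjoint_iff_inter_eq_empty.1 (Disjoint.mono_left inter_subset_left (Disjoint.closure_right
        (disjoint_left.2 fun z m r => disjoint_left.1 l ⟨m, r.2⟩ r.1) hp))⟩
  have cb := e c b hc hb (a5.mono_left (inter_subset_inter_left _ (subset_union_left.trans c2)))
  have db := e d b hd hb (a5.mono_left (inter_subset_inter_left _ (subset_union_right.trans c2)))
  refine t K ⟨hK.1.isCompact, hK.2, Q, s, hQ.1.isCompact, hQ.2, c ∩ K, d ∩ K, b ∩ K, ⟨w, c1, hw.1⟩,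
    c4, a4, subset_antisymm (fun z l => ?_) ?_, (e c d hc hd c5).1, (e c d hc hd c5).2, cb.1, cb.2,
    db.1, db.2⟩
  · exact (a3 ⟨l.2, l.1⟩).imp (fun m => (c3 ⟨m, l.1⟩).imp (⟨·, l.1⟩) (⟨·, l.1⟩)) (⟨·, l.1⟩)
  · rintro z ((l | l) | l)
    exacts [⟨l.2, a2 (Or.inl (c2 (Or.inl l.1)))⟩, ⟨l.2, a2 (Or.inl (c2 (Or.inr l.1)))⟩,
      ⟨l.2, a2 (Or.inr l.1)⟩]

def Dc (E : Set X) : Prop := ∃ A B, Ct A ∧ Ct B ∧ A ∪ B = E ∧ A ≠ E ∧ B ≠ E

lemma Mn.ind (h : Mn U K) (t : ∀ T : Set X, ¬ Tr T) : ∃ E ⊆ K, Ct E ∧ Ft K E ∧ ¬ Dc E := by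
  by_contra n
  push Not at n
  have st : ∀ u, IsOpen u → (u ∩ K).Nonempty → IsPreconnected (u ∩ K) → ∃ A B, Ct A ∧ Ct B ∧
      A ∪ B = closure (u ∩ K) ∧ A ⊆ K ∧ B ⊆ K ∧ Ft K A ∧ Ft K B ∧ ((u ∩ K) \ A).Nonempty ∧
      ((u ∩ K) \ B).Nonempty := fun u hu ne c => by
    have s : closure (u ∩ K) ⊆ K := h.cl.closure_subset_iff.2 inter_subset_right
    obtain ⟨A, B, hA, hB, e, a, b⟩ := n _ s ⟨isClosed_closure, IsConnected.closure ⟨ne, c⟩⟩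
      ⟨u, hu, ne, subset_closure⟩
    have k : ∀ A B, Ct A → A ∪ B = closure (u ∩ K) → A ≠ closure (u ∩ K) →
        Ft K B ∧ ((u ∩ K) \ A).Nonempty := fun A B hA e a => by
      obtain ⟨z, z1, z2⟩ : ((u ∩ K) \ A).Nonempty := diff_nonempty.2 fun l => a
        (subset_antisymm (e ▸ subset_union_left) (hA.1.closure_subset_iff.2 l))
      exact ⟨⟨u \ A, hu.sdiff hA.1, ⟨z, ⟨z1.1, z2⟩, z1.2⟩, fun y l =>
        (e.symm.subset (subset_closure ⟨l.1.1, l.2⟩)).resolve_left l.1.2⟩, z, z1, z2⟩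
    exact ⟨A, B, hA, hB, e, (e ▸ subset_union_left).trans s, (e ▸ subset_union_right).trans s,
      (k B A hB (union_comm _ _ ▸ e) b).1, (k A B hA e a).1, (k A B hA e a).2,
      (k B A hB (union_comm _ _ ▸ e) b).2⟩
  obtain ⟨P, Q, hP, hQ, e0, sP, sQ, -, fQ, ⟨q, q1, q2⟩, w, w1, w2⟩ := st univ isOpen_univ
    (by simpa using h.ct.2.1) (by simpa using h.ct.2.2)
  obtain ⟨u, u1, u2, u3, u5, u4⟩ := comp t h.ct hQ sQ ⟨w1.2, w2⟩
  obtain ⟨A, B, hA, hB, e1, sA, sB, -, fB, ⟨b, b1, b2⟩, a, a1, a2⟩ := st u u1 ⟨w, u2, w1.2⟩ u4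
  obtain ⟨o, o1, o2⟩ := h.meet t hQ hB sQ sB fQ fB
  obtain ⟨v, v1, v2, v3, -, v4⟩ := comp t h.ct (hQ.union hB o1 o2) (union_subset sQ sB) (w := a)
    ⟨a1.2, fun l => l.elim (disjoint_left.1 u3 a1.1) a2⟩
  obtain ⟨C, D, hC, hD, e2, sC, sD, fC, fD, ⟨d, d1, d2⟩, -⟩ := st v v1 ⟨a, v2, a1.2⟩ v4
  obtain ⟨x, x1, x2⟩ := h.meet t hC hD sC sD fC fD
  obtain ⟨y, y1, y2⟩ := h.meet t hC hQ sC sQ fC fQ
  obtain ⟨z, z1, z2⟩ := h.meet t hC hB sC sB fC fB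
  have qP : ∀ u, Disjoint u Q → closure (u ∩ K) ⊆ P := fun u l => hP.1.closure_subset_iff.2
    fun z m => (e0.symm.subset (subset_closure ⟨trivial, m.2⟩)).resolve_right
      (disjoint_left.1 l m.1)
  have bB : b ∈ B := (e1.symm.subset (subset_closure b1)).resolve_left b2
  have nb : b ∉ C ∪ D := fun l => b2 (hA.1.closure_subset_iff.2 (fun z m =>
    (e1.symm.subset (subset_closure ⟨u5 _ (fun y r => ⟨r.2, fun k => disjoint_left.1 v3 r.1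
      (Or.inl k)⟩) v4 ⟨a, ⟨v2, a1.2⟩, a1.1⟩ m, m.2⟩)).resolve_right fun k =>
      disjoint_left.1 v3 m.1 (Or.inr k)) (e2.subset l))
  rcases weak (W := univ) (fun T _ => t T) (hC.union hD x1 x2) (hC.union hQ y1 y2)
    (hC.union hB z1 z2) (subset_univ _) (subset_univ _) (subset_univ _) (Or.inl x1)
    (Or.inl x1) (Or.inl x1) with l | l | l
  · rcases l (e2.symm.subset (subset_closure d1)) with (l | l) | l | l
    exacts [d2 l, disjoint_left.1 v3 d1.1 (Or.inl l), d2 l, disjoint_left.1 v3 d1.1 (Or.inr l)]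
  · have m := qP v (v3.mono_right subset_union_left)
    rcases l (Or.inr ((e0.symm.subset (subset_closure q1)).resolve_left q2)) with l | l | l
    exacts [q2 (m (e2 ▸ l)), q2 (m (e2 ▸ Or.inl l)), q2 (qP u u3 (e1 ▸ Or.inr l))]
  · rcases l (Or.inr bB) with l | l | l
    exacts [nb l, nb (Or.inl l), disjoint_left.1 u3 b1.1 l]

def DD (S : Set X) (n : ℕ) : Prop :=
  ∀ (m : ℕ) (U : Fin m → Set X), (∀ i, IsOpen (U i)) → S ⊆ ⋃ i, U i →
    ∃ (k : ℕ) (V : Fin k → Set X), (∀ j, IsOpen (V j)) ∧ S ⊆ ⋃ j, V j ∧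
      (∀ j, ∃ i, V j ⊆ U i) ∧ ∀ x ∈ S, {j : Fin k | x ∈ V j}.ncard ≤ n + 1

omit [CompactSpace X] [T2Space X] in
lemma DD.dg {E : Set X} (h : DD E 1) : Dg E := fun ι _ U u1 u2 => by
  obtain ⟨m, ⟨e⟩⟩ := Finite.exists_equiv_fin ι
  obtain ⟨k, V, v1, v2, v3, v4⟩ := h m (fun i => U (e.symm i)) (fun i => u1 _)
    (by rwa [e.symm.surjective.iUnion_comp])
  refine ⟨Fin k, inferInstance, V, v1, v2, fun j => let ⟨i, l⟩ := v3 j; ⟨_, l⟩,
    fun x hx a b c l m n => by_contra fun r => ?_, fun _ l => l.elim⟩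
  push Not at r
  exact (v4 x hx).not_gt ((two_lt_ncard_iff (toFinite _)).2 ⟨a, b, c, l, m, n, r⟩)

omit [CompactSpace X] [T2Space X] in
lemma DD.sub {E : Set X} {n : ℕ} (h : DD (univ : Set X) n) (hE : IsClosed E) (ne : E.Nonempty) :
    DD E n := fun m U u1 u2 => by
  classical
  obtain ⟨i, -⟩ := mem_iUnion.1 (u2 ne.some_mem)
  obtain ⟨k, V, v1, v2, v3, v4⟩ := h m (fun i => U i ∪ Eᶜ) (fun i => (u1 i).union hE.isOpen_compl)
    fun x _ => by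
      by_cases l : x ∈ E
      · exact iUnion_mono (fun _ => subset_union_left) (u2 l)
      · exact mem_iUnion.2 ⟨i, Or.inr l⟩
  choose g hg using v3
  refine ⟨k, fun j => V j ∩ U (g j), fun j => (v1 j).inter (u1 _), fun x hx => ?_,
    fun j => ⟨_, inter_subset_right⟩, fun x _ => (ncard_le_ncard (fun j l => l.1)).trans
      (v4 x trivial)⟩
  obtain ⟨j, hj⟩ := mem_iUnion.1 (v2 (mem_univ x))
  exact mem_iUnion.2 ⟨j, hj, (hg j hj).resolve_right fun l => l hx⟩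

theorem main (t : ∀ T : Set X, ¬ Tr T) (h2 : DD (univ : Set X) 2) (h1 : ¬ DD (univ : Set X) 1) :
    ∃ K : Set X, Ct K ∧ DD K 2 ∧ ¬ DD K 1 ∧ ¬ Dc K := by
  simp only [DD, not_forall] at h1
  obtain ⟨m, U, u1, u2, n⟩ := h1
  obtain ⟨K, h⟩ := exists_mn u1 u2 fun ⟨κ, _, V, v1, v2, v3, v4, _⟩ => by
    obtain ⟨k, ⟨e⟩⟩ := Finite.exists_equiv_fin κ
    refine n ⟨k, fun j => V (e.symm j), fun j => v1 _, by rwa [e.symm.surjective.iUnion_comp],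
      fun j => v3 _, fun x hx => not_lt.1 fun l => ?_⟩
    obtain ⟨a, b, c, l, m, n, r⟩ := (two_lt_ncard_iff (toFinite _)).1 l
    have := v4 x hx _ _ _ l m n
    simp only [e.symm.injective.eq_iff] at this
    tauto
  obtain ⟨E, e1, e2, e3, e4⟩ := h.ind t
  exact ⟨E, e2, h2.sub e2.1 e2.2.1, fun l => h.fat e1 e3 l.dg, e4⟩

end Pool.Agent.H.MP_892330_gt
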